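import Pool.Agent.H33.OrDefs
import Pool.Agent.H33.Or1

namespace Pool.Agent.Results.MP_89dd65_gt.Q1

open scoped Real
open Pool.Agent.H33.Ori Real

noncomputable def E (a : ℕ) : Circle := Circle.exp (2 * π / 9) ^ a

lemma sgn (a b : ℕ) (ha : a < 9) (hb : b < 9) :
    (SignType.sign (sin ((b * (2 * π / 9) - a * (2 * π / 9)) / 2)) : ℝ) = sg a b := by
  have h : ∀ a b : ℕ, a < b → b < 9 → 0 < sin ((b * (2 * π / 9) - a * (2 * π / 9)) / 2) := by
    intro a b h1 h2
    have a1 : (a : ℝ) < b := by exact_mod_cast h1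
    have a2 : (b : ℝ) < 9 := by exact_mod_cast h2
    have a3 : (0 : ℝ) ≤ a := a.cast_nonneg
    exact sin_pos_of_pos_of_lt_pi (by nlinarith [pi_pos]) (by nlinarith [pi_pos])
  rcases lt_trichotomy a b with h1 | rfl | h1
  · rw [sign_pos (h a b h1 hb)]
    simp [sg, h1]
  · simp [sg]
  · rw [← neg_sub, neg_div, sin_neg, sign_neg (neg_neg_of_pos (h b a h1 ha))]
    simp [sg, h1, h1.not_gt]

lemma orE (a b c : ℕ) (ha : a < 9) (hb : b < 9) (hc : c < 9) :
    Or (E a) (E b) (E c) = o3 a b c := by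
  have e : ∀ a : ℕ, (E a : ℂ) = ⟨cos (a * (2 * π / 9)), sin (a * (2 * π / 9))⟩ := fun a => by
    rw [E, ← Circle.exp_nsmul, nsmul_eq_mul, Circle.coe_exp]
    exact Complex.ext (Complex.exp_ofReal_mul_I_re _) (Complex.exp_ofReal_mul_I_im _)
  have : ∀ x y z : ℝ, (cos y - cos x) * (sin z - sin x) + -(sin y - sin x) * (cos z - cos x) =
      4 * (sin ((y - x) / 2) * sin ((z - y) / 2) * sin ((z - x) / 2)) := fun x y z => by
    rw [cos_sub_cos, cos_sub_cos, sin_sub_sin, sin_sub_sin,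
      show (z - y) / 2 = (z + x) / 2 - (y + x) / 2 by ring, sin_sub]
    ring
  simp only [Pool.Agent.H33.Ori.Or, e, Complex.mul_im, Complex.conj_re, Complex.conj_im,
    Complex.sub_re, Complex.sub_im, this, sign_mul, SignType.coe_mul, sgn, ha, hb, hc, o3]
  simp

lemma th (t : ℕ → ℕ → ℕ) (ht : ∀ k j, t k j < 9) (θ : Fin 9 → Fin 4 → Circle)
    (h : ∀ j k, θ j k = E (t (3 - k) j)) : Theta 4 θ = π ^ 4 / (2 * 4 + 1).factorial *
      (∑ σ : Equiv.Perm (Fin 9), (Equiv.Perm.sign σ : ℤ) * F t σ : ℤ) := by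
  simp only [Theta, h, orE, ht, Fin.prod_univ_four, F, Int.cast_sum, Int.cast_mul]
  rfl

theorem result : ∃ θ, |Theta 4 (conf 4)| < |Theta 4 θ| := by
  refine ⟨fun j k => E (t2 (3 - k) j), ?_⟩
  rw [th t1 (fun _ _ => Nat.mod_lt _ (by norm_num)) (conf 4) fun j k => ?_,
    th t2 (fun _ _ => Nat.mod_lt _ (by norm_num)) _ fun _ _ => rfl, v1, v2,
    abs_of_pos (by positivity), abs_of_pos (by positivity)]
  · gcongr
    norm_num
  · have h9 : Circle.exp (2 * π / 9) ^ 9 = 1 := by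
      rw [← Circle.exp_nsmul, ← Circle.exp_two_pi]
      congr 1
      simp only [nsmul_eq_mul]
      push_cast
      ring
    rw [E, t1, ← pow_eq_pow_mod _ h9, conf, show 4 - (3 - k.1) = k + 1 by omega]
    norm_num

end Pool.Agent.Results.MP_89dd65_gt.Q1
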